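import Pool.Agent.V1153.UR.Tor
import Pool.Agent.V1153.OD.Fin

/-!
# Maps from complex tori, and curves and points of finite complexity

Let `X` be the closed subset of the projective space of dimension `n` over the complex numbers given
by a set `E` of forms, and let `Z` be the closed subset `G = 0`, `G` a form; all degrees are at most
`D`. We suppose that all nonconstant holomorphic maps from one-dimensional complex tori to `X` are
contained in `Z` (`TorusIn`); for `G = 1`, where `Z` is empty: that all holomorphic maps from complex
tori to `X` are constant. Then `Z` contains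

(1) all nonconstant entire curves in `X` of finite complexity (`InFinite`): these are the curves whose
homogeneous coordinates, in some open set and up to a common factor, are polynomials in `z`,
`1 / q(z)` and the entries of the solutions `y_1, ..., y_s` of iterated systems of linear differential
equations, the coefficients of the system for `y_l` being such polynomials in `z`, `1 / q(z)` and the
entries of `y_1, ..., y_{l-1}`;

(2) the images of all holomorphic maps of finite complexity from the punctured disc to `X` which do
not extend to the disc (`InPicardFinite`);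

(3) the images of all nonconstant meromorphic maps from the spaces `ℂ^m` to `X` with homogeneous
coordinates which are sums of products of polynomials and exponentials of arbitrary entire functions
(`InExp`);

(4) all uniruled integral closed subvarieties of `X` (`InRuled`);

(5) all but at most `B(s, r, e)` different points of each family of points of `X` given by iterated
recurrences of type `(s, r, e)`, for an arbitrary group (`InRec`), where `B(s, r, e)` depends only on
`n`, `D` and the type.

In particular, if all holomorphic maps from one-dimensional complex tori to `X` are constant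
(`TorusConst`), then the entire curves and the meromorphic maps in (1) and (3) are constant, the maps
in (2) extend to the disc, and the families in (5) have at most `B(s, r, e)` points.
-/

set_option autoImplicit false

namespace Pool.Agent.Results.MP_45e720_ag.FiniteComplexity

open MvPolynomial Pool.Agent.V1153.UG Pool.Agent.V1153.XS Pool.Agent.V1153.UR Pool.Agent.V1153.IT
open Pool.Agent.V1153.OD (TorusConst)
open Pool.Agent.W603.BP (Extends)
open Pool.Agent.Y377.ST (ptsOff)

/-- For all `n` and `D` there is a function `B` such that for all sets `E` of forms of degree at most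
`D` in `n + 1` variables over `ℂ`, for the projective variety `X` with the equations `E`: **(A)** if
all nonconstant holomorphic maps from one-dimensional complex tori to `X` are contained in `G = 0`, `G`
a form of degree at most `D`, then `G = 0` contains all nonconstant entire curves in `X` of finite
complexity, all maps of finite complexity from the punctured disc to `X` which do not extend, all
nonconstant meromorphic maps from the spaces `ℂ^m` to `X` given by sums of products of polynomials and
exponentials of entire functions, all uniruled subvarieties of `X`, and all but at most `B s r e`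
points of each family of points of `X` given by iterated recurrences of type `(s, r, e)`. **(B)** If
all holomorphic maps from one-dimensional complex tori to `X` are constant, then there are no
nonconstant entire curves or meromorphic maps of these kinds, the maps of finite complexity from the
punctured disc to `X` extend, and the families of type `(s, r, e)` have at most `B s r e` points. -/
theorem result (n D : ℕ) : ∃ B : ℕ → ℕ → ℕ → ℕ, ∀ (E : Set (MvPolynomial (Fin (n + 1)) ℂ)),
    (∀ F ∈ E, ∃ a ≤ D, F.IsHomogeneous a) →
      (∀ G : MvPolynomial (Fin (n + 1)) ℂ, (∃ a ≤ D, G.IsHomogeneous a) → TorusIn E G →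
        InFinite E 1 G ∧ InPicardFinite E 1 G ∧ InExp E 1 G ∧ InRuled E 1 G ∧ InRec E 1 G B) ∧
      (TorusConst E →
        (∀ s r e d f, Curve (Ideal.span E) 1 f → ¬ Bdd Set.univ 1 s r e d f) ∧
        (∀ s r e d f, DCurve (Ideal.span E) 1 f → Bdd pdisc 1 s r e d f → Extends f) ∧
        (∀ m r e f, ¬ ExpMap m r e (Ideal.span E) 1 f) ∧
        ∀ (s r e : ℕ) (H : Type) [Group H] (x : H → Fin (n + 1) → ℂ),
          (∀ h, ∀ F ∈ E, eval (x h) F = 0) → IterOff s r e 1 x →
            {p : Projectivization ℂ (Fin (n + 1) → ℂ) | ∃ (h : H) (h0 : x h ≠ 0),
              p = Projectivization.mk ℂ (x h) h0}.encard ≤ (B s r e : ℕ∞)) := by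
  obtain ⟨B, hB⟩ := spec_tfae n D
  refine ⟨B, fun E hE => ?_⟩
  have hom : ∀ F ∈ E, ∃ a, F.IsHomogeneous a := fun F hF => by
    obtain ⟨a, -, ha⟩ := hE F hF
    exact ⟨a, ha⟩
  have key : ∀ G : MvPolynomial (Fin (n + 1)) ℂ, (∃ a ≤ D, G.IsHomogeneous a) → TorusIn E G →
      InFinite E 1 G ∧ InPicardFinite E 1 G ∧ InExp E 1 G ∧ InRuled E 1 G ∧ InRec E 1 G B := by
    intro G hG hT
    obtain ⟨hT1, -⟩ := hB E 1 G 0 hE (Nat.zero_le _) (isHomogeneous_one _ _) hG
    obtain ⟨γ, -, hγ⟩ := id hG
    have h1 := hT.gm hom hγ
    exact ⟨(hT1.out 0 1).1 h1, (hT1.out 0 3).1 h1, (hT1.out 0 4).1 h1, (hT1.out 0 5).1 h1,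
      (hT1.out 0 7).1 h1⟩
  refine ⟨key, fun hT => ?_⟩
  obtain ⟨h1, h2, h3, -, h5⟩ := key 1 ⟨0, Nat.zero_le _, isHomogeneous_one _ _⟩
    fun ω₁ ω₂ hω t ht hp1 hp2 hF ⟨z, w, hzw⟩ => absurd (hT ω₁ ω₂ hω t ht hp1 hp2 hF z w) hzw
  refine ⟨fun s r e d f hf hb => ?_, fun s r e d f hf hb => ?_, fun m r e f hf => ?_,
    fun s r e H _ x hx hit => (Set.encard_le_encard ?_).trans (h5 s r e H x hx hit)⟩
  · have h6 := h1 s r e d f hf hb 0
    rw [map_one] at h6
    exact one_ne_zero h6
  · by_contra he
    have h7 : (1 / 2 : ℂ) ∈ pdisc := ⟨by norm_num, by norm_num⟩
    have h6 := h2 s r e d f hf hb he _ h7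
    rw [map_one] at h6
    exact one_ne_zero h6
  · have h6 := h3 m r e f hf 0
    rw [map_one] at h6
    exact one_ne_zero h6
  · rintro p ⟨h, h0, hp⟩
    refine ⟨h, h0, ?_, hp⟩
    rw [map_one]
    exact one_ne_zero

end Pool.Agent.Results.MP_45e720_ag.FiniteComplexity
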